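import Pool.Agent.X323.GI.KanG

/-!
# Vojta's inequality for cyclic covers branched over generic members of linear systems

Let `k` be a field contained in `ℂ`, with algebraic closure `k'` in `ℂ`. Let `V` be a closed subset of
the projective space of dimension `n`, defined over `k'`, of dimension at most `m` (with any
singularities), for instance a smooth surface (`m = w = 2`), and let `κ` be a number such that
`(κ - w - 1) H - K_V` has degree `≥ 0` on all curves in `V`. For `a < q` let `F_a` be a member, generic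
over `k`, of a linear system over `k'` of forms of degree `d_a`, and let `Z` be a set of indices `c` such
that the linear systems contain all forms `x_c ^ (d_a - e) x_i ^ e` (the other forms in the systems are
arbitrary); let `E₀` be the linear space `x_c = 0`, `c ∈ Z`. Let `e_a ≥ 1` divide `d_a` and suppose that
`δ = ∑ (1 - 1 / e_a) d_a` is at least `2 m + 1`. We prove

  `(δ - 2 m) (K_S · C) ≤ (κ - w - 1 + δ) (2 g - 2)`

and so `K_S · C ≤ 2 (2 g - 2) = 4 (g - 1)` if `δ ≥ κ - w - 1 + 4 m`, for all curves `C` of genus `g`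

1. on the cover `S` of `V` with the equations `y_a ^ e_a = F_a (x)` (with
   `K_S = π^* (K_V + ∑ (1 - 1 / e_a) D_a)`, `D_a = V ∩ {F_a = 0}`),
2. and on the Kummer covering `S ⊆ ℙ^(n + q)` with these equations, if `e_a = d_a` for all `a` (here with
   `K_S` computed from the tangent spaces of `S` itself),

whose image in `V` is a curve not contained in `E₀` and in the hypersurfaces `F_a = 0`.
-/

set_option autoImplicit false

namespace Pool.Agent.Results.MP_79ab39_ag.GenericMemberCovers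

open MvPolynomial FF Pool.Agent.W603.PV Pool.Agent.W603.LV Pool.Agent.W602.GT
  Pool.Agent.X323.GI
open Pool.Agent.TH145.MG (DimLE)
open Pool.Agent.TH875.Vg (ght)

/-- The point `z` with coordinates in the function field `L` of a smooth projective curve gives a
nonconstant map from this curve to the projective space. -/
def Nonconstant {ι : Type} {L : Type} [Field L] [Algebra ℂ L] (z : ι → L) : Prop :=
  ∃ i j, z j ≠ 0 ∧ z i / z j ∉ Set.range (algebraMap ℂ L)

/-- The bounds for the canonical degree `K` of a curve with `2 g - 2 = G`. -/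
def VojtaBound (m w κ δ : ℕ) (K G : ℤ) : Prop :=
  ((δ : ℤ) - 2 * m) * K ≤ (κ - w - 1 + δ) * G ∧ (κ + 4 * m ≤ δ + w + 1 → K ≤ 2 * G)

theorem bound_of {m w κ δ : ℕ} (hδ : 2 * m + 1 ≤ δ) {K G : ℤ} (hG : 0 ≤ G)
    (h : ((δ : ℤ) - 2 * m) * K ≤ (κ - w - 1 + δ) * G) : VojtaBound m w κ δ K G := by
  refine ⟨h, fun h1 => ?_⟩
  have h2 : (0 : ℤ) < (δ : ℤ) - 2 * m := by
    have : ((2 * m + 1 : ℕ) : ℤ) ≤ δ := by exact_mod_cast hδ
    push_cast at this
    linarith
  have h3 : ((κ : ℤ) - w - 1 + δ) * G ≤ (2 * ((δ : ℤ) - 2 * m)) * G := by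
    refine mul_le_mul_of_nonneg_right ?_ hG
    have : ((κ + 4 * m : ℕ) : ℤ) ≤ (δ + w + 1 : ℕ) := by exact_mod_cast h1
    push_cast at this
    linarith
  have h4 : ((δ : ℤ) - 2 * m) * K ≤ ((δ : ℤ) - 2 * m) * (2 * G) := by linarith
  exact le_of_mul_le_mul_left h4 h2

theorem result {k : Type} [Field k] [Algebra k ℂ] {n m : ℕ}
    (V : Set (MvPolynomial (Fin (n + 1)) (algebraicClosure k ℂ)))
    (hVh : ∀ f ∈ V, ∃ e, f.IsHomogeneous e) (hV : DimLE (algebraicClosure k ℂ) V m) (w : ℕ) :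
    (∃ κ : ℕ, w + 1 ≤ κ ∧ CanBound (overC V) w κ) ∧
    ∀ κ : ℕ, w + 1 ≤ κ → CanBound (overC V) w κ →
      ∀ (q : ℕ) (d e : Fin q → ℕ), (∀ a, e a ≠ 0 ∧ e a ∣ d a) → 2 * m + 1 ≤ covDegree d ∅ e →
      ∀ (Z : Set (Fin (n + 1))) (F : Fin q → MvPolynomial (Fin (n + 1)) ℂ),
      GenericMembers k d Z F →
      -- (1) cyclic covers
      (∀ (L : Type) [Field L] [Algebra ℂ L] [IsFF ℂ L] (x : Fin (n + 1) → L) (y : Fin q → L),
        Nonconstant x → (∀ f ∈ overC V, aeval x f = 0) →
        (∀ a, y a ≠ 0 ∧ y a ^ e a = aeval x (F a)) → (∃ c ∈ Z, x c ≠ 0) →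
        ∀ u : Fin (w + 1) → Fin (n + 1) → L, IsTangent (overC V) x u →
          VojtaBound m w κ (covDegree d ∅ e)
            (canHeight x u + covDegree d ∅ e * ght ℂ x) (canDeg ℂ L)) ∧
      -- (2) Kummer coverings
      ((∀ a, e a = d a) →
        ∀ (L : Type) [Field L] [Algebra ℂ L] [IsFF ℂ L] (z : Fin (n + 1) ⊕ Fin q → L),
        Nonconstant z → (∀ G ∈ coverIdeal (overC V) d F, aeval z G = 0) →
        (∀ a, z (Sum.inr a) ≠ 0) → (∃ c ∈ Z, z (Sum.inl c) ≠ 0) →
        ∀ v : Fin (w + 1) → Fin (n + 1) ⊕ Fin q → L,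
          IsTangent (coverIdeal (overC V) d F) z v →
            VojtaBound m w κ (covDegree d ∅ d) (canHeight z v) (canDeg ℂ L)) := by
  refine ⟨exists_canBound hVh w, fun κ hκ hcan q d e he hδ Z F hF => ⟨?_, ?_⟩⟩
  · intro L _ _ _ x y hnc hxV hy hc u hu
    obtain ⟨c, hcZ, hc⟩ := hc
    have hx0 : x ≠ 0 := fun h => hc (congrFun h c)
    have h1 := kan_x hVh hV hF he L x y hnc hxV (fun a => (hy a).2) hcZ hc
    have h2 := hcan L x hx0 hxV u hu
    have h3 : (0 : ℤ) ≤ ght ℂ x := Pool.Agent.Y741.pht_nonneg (k := ℂ) hx0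
    have h4 : (0 : ℤ) < (covDegree d ∅ e : ℤ) - 2 * m := by
      have : ((2 * m + 1 : ℕ) : ℤ) ≤ covDegree d ∅ e := by exact_mod_cast hδ
      push_cast at this
      linarith
    have h5 : (0 : ℤ) ≤ (κ : ℤ) - w - 1 + covDegree d ∅ e := by
      have : ((w + 1 : ℕ) : ℤ) ≤ κ := by exact_mod_cast hκ
      push_cast at this
      have h6 : (0 : ℤ) ≤ covDegree d ∅ e := by positivity
      linarith
    refine bound_of hδ (le_trans (mul_nonneg h4.le h3) h1) ?_
    have h6 : canHeight x u + covDegree d ∅ e * ght ℂ x ≤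
        ((κ : ℤ) - w - 1 + covDegree d ∅ e) * ght ℂ x := by linarith
    calc _ ≤ ((covDegree d ∅ e : ℤ) - 2 * m) *
          (((κ : ℤ) - w - 1 + covDegree d ∅ e) * ght ℂ x) := mul_le_mul_of_nonneg_left h6 h4.le
      _ = ((κ : ℤ) - w - 1 + covDegree d ∅ e) *
          (((covDegree d ∅ e : ℤ) - 2 * m) * ght ℂ x) := by ring
      _ ≤ _ := mul_le_mul_of_nonneg_left h1 h5
  · intro hed L _ _ _ z hnc hz hz0 hc v hv
    obtain rfl : e = d := funext hed
    obtain ⟨c, hcZ, hc⟩ := hc
    refine bound_of hδ ?_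
      (kan_cover hVh hV hF (fun a => (he a).1) hδ hκ hcan L z hnc hz hz0 hcZ hc hv)
    have hx0 : (fun j => z (Sum.inl j)) ≠ 0 := fun h => hc (congrFun h c)
    have hnc' : ∃ a b, z b ≠ 0 ∧ Transcendental ℂ (z a / z b) := by
      obtain ⟨a, b, hb, hab⟩ := hnc
      exact ⟨a, b, hb, fun halg =>
        hab (minpoly.mem_range_of_degree_eq_one ℂ _
          (IsAlgClosed.degree_eq_one_of_irreducible ℂ (minpoly.irreducible halg.isIntegral)))⟩
    obtain ⟨a, b, hb, hab⟩ := Pool.Agent.TH875.Vg.kIdeal_nonconst (I := overC V) (e := e) (g := F)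
      (fun a => Nat.pos_of_ne_zero (he a).1) (homog_of hF) hz hnc'
    have hzz := Pool.Agent.TH875.Vg.kIdeal_zero (I := overC V) (e := e) (g := F) hz
    have h1 := kan_x hVh hV hF he L (fun j => z (Sum.inl j)) (fun i => z (Sum.inr i))
      ⟨a, b, hb, fun ⟨t, ht⟩ => by
        apply hab
        rw [← ht]
        exact isAlgebraic_algebraMap t⟩ hzz.1 hzz.2 hcZ hc
    have h3 : (0 : ℤ) ≤ ght ℂ fun j => z (Sum.inl j) := Pool.Agent.Y741.pht_nonneg (k := ℂ) hx0
    have h4 : (0 : ℤ) < (covDegree e ∅ e : ℤ) - 2 * m := by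
      have : ((2 * m + 1 : ℕ) : ℤ) ≤ covDegree e ∅ e := by exact_mod_cast hδ
      push_cast at this
      linarith
    exact le_trans (mul_nonneg h4.le h3) h1

end Pool.Agent.Results.MP_79ab39_ag.GenericMemberCovers
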